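import Pool.Agent.H439.TH.Numbers

set_option autoImplicit false

namespace Pool.Agent.H439.TH

open Finset Complex ComplexConjugate Filter Topology Pool.Agent.H439.LS Pool.Agent.H439.SP

/-- the sums over the primes in `(A, T]` -/
noncomputable def ST {q : ℕ} (a : ℕ → ℂ) (χ : DirichletCharacter ℂ q) (t : ℝ) (A T : ℕ) : ℂ :=
  ∑ p ∈ (Ioc A T).filter Nat.Prime, a p * Real.log p * (χ p * ph (-t) p)

lemma ST_add {q : ℕ} (a : ℕ → ℂ) (χ : DirichletCharacter ℂ q) (t : ℝ) {A B T : ℕ} (h1 : A ≤ B)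
    (h2 : B ≤ T) : ST a χ t A T = ST a χ t A B + ST a χ t B T := by
  unfold ST
  have e : (Ioc A T).filter Nat.Prime = (Ioc A B).filter Nat.Prime ∪ (Ioc B T).filter Nat.Prime := by
    ext p
    simp only [mem_filter, mem_union, mem_Ioc]
    constructor
    · rintro ⟨⟨h3, h4⟩, h5⟩
      rcases le_or_gt p B with h | h
      · exact Or.inl ⟨⟨h3, h⟩, h5⟩
      · exact Or.inr ⟨⟨h, h4⟩, h5⟩
    · rintro (⟨⟨h3, h4⟩, h5⟩ | ⟨⟨h3, h4⟩, h5⟩)
      · exact ⟨⟨h3, by omega⟩, h5⟩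
      · exact ⟨⟨by omega, h4⟩, h5⟩
  rw [e, sum_union]
  rw [disjoint_left]
  intro p hp hp'
  rw [mem_filter, mem_Ioc] at hp hp'
  omega

lemma norm_ST_le {q : ℕ} {a : ℕ → ℂ} {M : ℝ} (ha : ∀ p : ℕ, p.Prime → ‖a p‖ ≤ M)
    (χ : DirichletCharacter ℂ q) (t : ℝ) {A T : ℕ} (hAT : A ≤ T) {L : ℝ} (hL : Real.log T ≤ L)
    (hL0 : 0 ≤ L) (hM : 0 ≤ M) :
    ‖ST a χ t A T‖ ≤ ((T : ℝ) - A) * (M * L) := by
  unfold ST
  have h1 : ∀ p ∈ (Ioc A T).filter Nat.Prime, ‖a p * Real.log p * (χ p * ph (-t) p)‖ ≤ M * L := by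
    intro p hp
    rw [mem_filter, mem_Ioc] at hp
    have hp1 : (1 : ℝ) ≤ p := by exact_mod_cast hp.2.one_le
    have hpT : (p : ℝ) ≤ T := by exact_mod_cast hp.1.2
    have hlogp : Real.log p ≤ L := (Real.log_le_log (by linarith) hpT).trans hL
    rw [norm_mul, norm_mul (a p), norm_mul (χ (p : ZMod q)), norm_ph _ hp.2.pos, mul_one,
      norm_real, Real.norm_of_nonneg (Real.log_nonneg hp1)]
    calc ‖a p‖ * Real.log p * ‖χ (p : ZMod q)‖ ≤ ‖a p‖ * Real.log p * 1 := by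
          apply mul_le_mul_of_nonneg_left (χ.norm_le_one _)
          have := Real.log_nonneg hp1
          positivity
      _ ≤ M * L := by
          rw [mul_one]
          exact mul_le_mul (ha p hp.2) hlogp (Real.log_nonneg hp1) hM
  refine (norm_sum_le_of_le _ h1).trans ?_
  rw [sum_const, nsmul_eq_mul]
  apply mul_le_mul_of_nonneg_right _ (by positivity)
  have h2 := card_filter_le (Ioc A T) Nat.Prime
  rw [Nat.card_Ioc] at h2
  rw [← Nat.cast_sub hAT]
  exact_mod_cast h2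

/-- the coefficients with a cut -/
noncomputable def ac (a : ℕ → ℂ) (m T : ℕ) (p : ℕ) : ℂ :=
  if p ≤ T ∧ p ≤ 2 ^ (m + 1) then
    a p * (((p : ℝ) * Real.log p / (2 ^ (m + 1) * ((m + 1) * Real.log 2)) : ℝ) : ℂ) else 0

lemma norm_ac {a : ℕ → ℂ} {M : ℝ} (hM : 0 ≤ M) (ha : ∀ p : ℕ, p.Prime → ‖a p‖ ≤ M) (m T : ℕ) :
    ∀ p : ℕ, p.Prime → ‖ac a m T p‖ ≤ M := by
  intro p hp
  unfold ac
  have hl2 : 0 < Real.log 2 := Real.log_pos (by norm_num)
  split_ifs with h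
  · have hp1 : (1 : ℝ) ≤ p := by exact_mod_cast hp.one_le
    have hp2 : (p : ℝ) ≤ 2 ^ (m + 1) := by exact_mod_cast h.2
    have hlogp : Real.log p ≤ (m + 1) * Real.log 2 := by
      have := Real.log_le_log (by linarith) hp2
      rw [Real.log_pow] at this
      push_cast at this
      exact this
    have hlogp0 := Real.log_nonneg hp1
    have h0 : 0 ≤ (p : ℝ) * Real.log p / (2 ^ (m + 1) * ((m + 1) * Real.log 2)) := by positivity
    rw [norm_mul, norm_real, Real.norm_of_nonneg h0]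
    have h1 : (p : ℝ) * Real.log p / (2 ^ (m + 1) * ((m + 1) * Real.log 2)) ≤ 1 := by
      rw [div_le_one (by positivity)]
      exact mul_le_mul hp2 hlogp hlogp0 (by positivity)
    calc ‖a p‖ * _ ≤ M * 1 := mul_le_mul (ha p hp) h1 h0 hM
      _ = M := mul_one M
  · rw [norm_zero]; exact hM

lemma bk_ac {q : ℕ} (a : ℕ → ℂ) (χ : DirichletCharacter ℂ q) (t : ℝ) {m T : ℕ}
    (hT : T ≤ 2 ^ (m + 1)) :
    ST a χ t (2 ^ m) T = ((2 ^ (m + 1) * ((m + 1) * Real.log 2) : ℝ) : ℂ) *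
      bk (ac a m T) χ t 0 m := by
  have hl2 : 0 < Real.log 2 := Real.log_pos (by norm_num)
  have hW : (2 ^ (m + 1) * ((m + 1) * Real.log 2) : ℝ) ≠ 0 := by positivity
  unfold ST bk
  rw [mul_sum]
  have hsub : (Ioc (2 ^ m) T).filter Nat.Prime ⊆ (Ioc (2 ^ m) (2 ^ (m + 1))).filter Nat.Prime :=
    filter_subset_filter _ (Ioc_subset_Ioc_right hT)
  rw [← sum_subset hsub]
  · apply sum_congr rfl
    intro p hp
    rw [mem_filter, mem_Ioc] at hp
    unfold trm ac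
    rw [if_pos ⟨hp.1.2, hp.1.2.trans hT⟩]
    have hp0 : (0 : ℝ) < p := by exact_mod_cast hp.2.pos
    have e : ((p : ℝ) ^ (-(1 + (0 : ℝ)))) = (p : ℝ)⁻¹ := by
      rw [add_zero, Real.rpow_neg_one]
    rw [e]
    have e2 : ∀ (w r d : ℝ) (z y : ℂ), (w : ℂ) * ((r : ℂ) * (z * (d : ℂ) * y)) =
        ((w * (r * d) : ℝ) : ℂ) * (z * y) := by
      intro w r d z y
      push_cast
      ring
    have e3 : (2 ^ (m + 1) * ((m + 1) * Real.log 2)) * ((p : ℝ)⁻¹ *
        ((p : ℝ) * Real.log p / (2 ^ (m + 1) * ((m + 1) * Real.log 2)))) = Real.log p := by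
      field_simp
    rw [e2, e3]
    ring
  · intro p hp hp'
    rw [mem_filter, mem_Ioc] at hp hp'
    unfold trm ac
    rw [if_neg]
    · simp
    · rintro ⟨h1, _⟩
      exact hp' ⟨⟨hp.1.1, h1⟩, hp.2⟩

/-- the level of a block -/
noncomputable def lv (δ : ℝ) (m : ℕ) : ℝ := Real.exp (-(δ / 400 * (m * Real.log 2)))

lemma lv_pos (δ : ℝ) (m : ℕ) : 0 < lv δ m := Real.exp_pos _

/-- the step of the grid -/
noncomputable def stp (δ : ℝ) (m : ℕ) : ℕ := ⌈2 ^ m * lv δ m⌉₊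

lemma stp_pos (δ : ℝ) (m : ℕ) : 0 < stp δ m :=
  Nat.ceil_pos.2 (mul_pos (by positivity) (lv_pos δ m))

/-- **The blocks: the exceptional members.** -/
theorem medium {δ M : ℝ} (hδ : 0 < δ) (hδ1 : δ ≤ 1) (hM : 0 ≤ M) :
    ∀ᶠ ℓ : ℝ in atTop, ∀ (J : ℕ) (q : Fin J → ℕ) (χ : ∀ j, DirichletCharacter ℂ (q j))
      (t : Fin J → ℝ), Spaced q χ t → (∀ j, (q j : ℝ) ≤ Real.exp ℓ) → (∀ j, |t j| ≤ Real.exp ℓ) →
      ∀ a : ℕ → ℂ, (∀ p : ℕ, p.Prime → ‖a p‖ ≤ M) →
      ∃ E : Finset (Fin J), (E.card : ℝ) ≤ Real.exp (δ * ℓ / 2) ∧ ∀ j, j ∉ E →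
        ∀ m T : ℕ, 1 ≤ m → (m : ℝ) * Real.log 2 ≤ 42 * ℓ → 120 / δ * Real.log ℓ ≤ m * Real.log 2 →
        2 ^ m ≤ T → T ≤ 2 ^ (m + 1) →
        ‖ST a (χ j) (t j) (2 ^ m) T‖ ≤ (2 + M) * (m + 1) * (2 ^ m * lv δ m) := by
  have hC0 := C0_nonneg
  filter_upwards [numbers2 hδ hδ1 hM, eventually_ge_atTop 16,
    ev_pow (2 * 62 * (502200 * C0)) (b := 37 / 600 * δ) (by positivity) 7] with ℓ hnum hℓ1 hev
  intro J q χ t hsp hq ht a ha
  classical
  have hℓ0 : 0 < ℓ := by linarith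
  have hl2 : 0 < Real.log 2 := Real.log_pos (by norm_num)
  have hl2a := Real.log_two_gt_d9
  have hl2b := Real.log_two_lt_d9
  set W : ℕ → ℕ → Finset (Fin J) := fun m i => univ.filter fun j =>
    lv δ m ≤ ‖bk (ac a m (2 ^ m + i * stp δ m)) (χ j) (t j) 0 m‖ with hW
  set Mr : Finset ℕ := (range (⌊61 * ℓ⌋₊ + 1)).filter (fun m => 1 ≤ m ∧
    (m : ℝ) * Real.log 2 ≤ 42 * ℓ ∧ 120 / δ * Real.log ℓ ≤ m * Real.log 2) with hMr
  set E : Finset (Fin J) := Mr.biUnion fun m => (range (2 ^ m / stp δ m + 1)).biUnion fun i => W m i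
    with hE
  refine ⟨E, ?_, ?_⟩
  · -- the number of the exceptions
    have hb : ∀ m ∈ Mr, ∀ i ∈ range (2 ^ m / stp δ m + 1), ((W m i).card : ℝ) ≤
        502200 * C0 * ℓ ^ 6 * Real.exp (δ * ℓ / 3) := by
      intro m hm i _
      rw [hMr, mem_filter] at hm
      obtain ⟨_, hm1, hm2, hm3⟩ := hm
      obtain ⟨k, hk1, hk2, hk3⟩ := hnum m hm1 hm2 hm3
      refine le_trans ?_ hk3
      exact sub_count hsp (Real.exp_nonneg ℓ) hq ht (ε := fun _ => 0) (fun _ => le_rfl)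
        (fun _ => zero_le_one) hm1 hk1 hM (norm_ac hM ha m _) (lv_pos δ m) (W m i)
        (fun j hj => (mem_filter.1 hj).2) hk2
    have hN : ∀ m ∈ Mr, ((2 ^ m / stp δ m + 1 : ℕ) : ℝ) ≤ 2 * Real.exp (21 / 200 * δ * ℓ) := by
      intro m hm
      rw [hMr, mem_filter] at hm
      obtain ⟨_, hm1, hm2, hm3⟩ := hm
      have h1 : ((2 ^ m / stp δ m : ℕ) : ℝ) ≤ (2 ^ m : ℝ) / (stp δ m : ℝ) := by
        have := Nat.cast_div_le (α := ℝ) (m := 2 ^ m) (n := stp δ m)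
        push_cast at this
        exact this
      have h2 : (2 ^ m : ℝ) * lv δ m ≤ stp δ m := Nat.le_ceil _
      have hs0 : (0 : ℝ) < stp δ m := by exact_mod_cast stp_pos δ m
      have h3 : (2 ^ m : ℝ) / (stp δ m : ℝ) ≤ Real.exp (δ / 400 * (m * Real.log 2)) := by
        rw [div_le_iff₀ hs0]
        have e : (2 ^ m : ℝ) = Real.exp (δ / 400 * (m * Real.log 2)) * (2 ^ m * lv δ m) := by
          unfold lv
          rw [mul_left_comm, ← Real.exp_add, add_neg_cancel, Real.exp_zero, mul_one]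
        calc (2 ^ m : ℝ) = Real.exp (δ / 400 * (m * Real.log 2)) * (2 ^ m * lv δ m) := e
          _ ≤ _ := mul_le_mul_of_nonneg_left h2 (Real.exp_nonneg _)
      have h4 : Real.exp (δ / 400 * (m * Real.log 2)) ≤ Real.exp (21 / 200 * δ * ℓ) := by
        apply Real.exp_le_exp.2
        have : δ / 400 * (m * Real.log 2) ≤ δ / 400 * (42 * ℓ) := by gcongr
        linarith
      have h5 : (1 : ℝ) ≤ Real.exp (21 / 200 * δ * ℓ) := Real.one_le_exp (by positivity)
      push_cast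
      linarith
    have hcM : (Mr.card : ℝ) ≤ 62 * ℓ := by
      have h1 : Mr.card ≤ ⌊61 * ℓ⌋₊ + 1 := by
        refine (card_filter_le _ _).trans ?_
        rw [card_range]
      have h2 : (⌊61 * ℓ⌋₊ : ℝ) ≤ 61 * ℓ := Nat.floor_le (by positivity)
      have h3 : (Mr.card : ℝ) ≤ ⌊61 * ℓ⌋₊ + 1 := by exact_mod_cast h1
      linarith
    set B : ℝ := 502200 * C0 * ℓ ^ 6 * Real.exp (δ * ℓ / 3) with hB
    have hB0 : 0 ≤ B := by positivity
    have h1 : (E.card : ℝ) ≤ ∑ m ∈ Mr, ∑ i ∈ range (2 ^ m / stp δ m + 1), ((W m i).card : ℝ) := by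
      have h2 : E.card ≤ ∑ m ∈ Mr, ∑ i ∈ range (2 ^ m / stp δ m + 1), (W m i).card := by
        refine card_biUnion_le.trans (sum_le_sum fun m _ => ?_)
        exact card_biUnion_le
      exact_mod_cast h2
    calc (E.card : ℝ) ≤ ∑ m ∈ Mr, ∑ i ∈ range (2 ^ m / stp δ m + 1), ((W m i).card : ℝ) := h1
      _ ≤ ∑ m ∈ Mr, 2 * Real.exp (21 / 200 * δ * ℓ) * B := by
          apply sum_le_sum
          intro m hm
          refine (sum_le_sum (hb m hm)).trans ?_
          rw [sum_const, card_range, nsmul_eq_mul]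
          exact mul_le_mul_of_nonneg_right (hN m hm) hB0
      _ = Mr.card * (2 * Real.exp (21 / 200 * δ * ℓ) * B) := by rw [sum_const, nsmul_eq_mul]
      _ ≤ (62 * ℓ) * (2 * Real.exp (21 / 200 * δ * ℓ) * B) :=
          mul_le_mul_of_nonneg_right hcM (by positivity)
      _ = (2 * 62 * (502200 * C0) * ℓ ^ 7) * (Real.exp (21 / 200 * δ * ℓ) * Real.exp (δ * ℓ / 3)) := by
          rw [hB]; ring
      _ ≤ Real.exp (37 / 600 * δ * ℓ) * (Real.exp (21 / 200 * δ * ℓ) * Real.exp (δ * ℓ / 3)) :=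
          mul_le_mul_of_nonneg_right hev (by positivity)
      _ = Real.exp (δ * ℓ / 2) := by
          rw [← Real.exp_add, ← Real.exp_add]
          congr 1
          ring
  · intro j hj m T hm1 hm2 hm3 hT1 hT2
    have hs := stp_pos δ m
    have hmMr : m ∈ Mr := by
      rw [hMr, mem_filter, mem_range]
      refine ⟨?_, hm1, hm2, hm3⟩
      apply Nat.lt_succ_of_le
      apply Nat.le_floor
      nlinarith
    set i : ℕ := (T - 2 ^ m) / stp δ m with hi
    set x : ℕ := 2 ^ m + i * stp δ m with hx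
    have h1 : i * stp δ m ≤ T - 2 ^ m := Nat.div_mul_le_self _ _
    have h2 : T - 2 ^ m < (i + 1) * stp δ m := by
      have := Nat.lt_mul_div_succ (T - 2 ^ m) hs
      rw [mul_comm]
      exact this
    have hxT : x ≤ T := by omega
    have hiN : i ∈ range (2 ^ m / stp δ m + 1) := by
      rw [mem_range]
      apply Nat.lt_succ_of_le
      apply Nat.div_le_div_right
      rw [pow_succ] at hT2
      omega
    have hnotin : j ∉ W m i := by
      intro hcon
      apply hj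
      rw [hE, mem_biUnion]
      exact ⟨m, hmMr, mem_biUnion.2 ⟨i, hiN, hcon⟩⟩
    have h3 : ‖bk (ac a m x) (χ j) (t j) 0 m‖ ≤ lv δ m := by
      by_contra hcon
      rw [not_le] at hcon
      exact hnotin (mem_filter.2 ⟨mem_univ _, hcon.le⟩)
    have hlv := lv_pos δ m
    have hW0 : 0 ≤ (2 ^ (m + 1) * ((m + 1) * Real.log 2) : ℝ) := by positivity
    have h4 : ‖ST a (χ j) (t j) (2 ^ m) x‖ ≤ (2 ^ (m + 1) * ((m + 1) * Real.log 2)) * lv δ m := by
      rw [bk_ac a (χ j) (t j) (hxT.trans hT2), norm_mul, norm_real, Real.norm_of_nonneg hW0]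
      exact mul_le_mul_of_nonneg_left h3 hW0
    have hlogT : Real.log T ≤ (m + 1) * Real.log 2 := by
      have hT0 : (0 : ℝ) < T := by
        have : 0 < T := lt_of_lt_of_le (by positivity) hT1
        exact_mod_cast this
      have hT3 : (T : ℝ) ≤ 2 ^ (m + 1) := by exact_mod_cast hT2
      have := Real.log_le_log hT0 hT3
      rw [Real.log_pow] at this
      push_cast at this
      exact this
    have h5 := norm_ST_le ha (χ j) (t j) hxT hlogT (by positivity) hM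
    have h6 : (T : ℝ) - x ≤ 2 ^ m * lv δ m := by
      have h7 : T - x + 1 ≤ stp δ m := by
        have e : (i + 1) * stp δ m = i * stp δ m + stp δ m := by ring
        rw [e] at h2
        omega
      have h8 : ((T - x + 1 : ℕ) : ℝ) ≤ stp δ m := by exact_mod_cast h7
      have h9 : (stp δ m : ℝ) < 2 ^ m * lv δ m + 1 := Nat.ceil_lt_add_one (by positivity)
      rw [Nat.cast_add, Nat.cast_sub hxT] at h8
      push_cast at h8 ⊢
      linarith
    have hxm : 2 ^ m ≤ x := by omega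
    rw [ST_add a (χ j) (t j) hxm hxT]
    refine (norm_add_le _ _).trans ?_
    have h7 : ‖ST a (χ j) (t j) x T‖ ≤ 2 ^ m * lv δ m * (M * ((m + 1) * Real.log 2)) :=
      h5.trans (mul_le_mul_of_nonneg_right h6 (by positivity))
    have h8 : (2 ^ (m + 1) * ((m + 1) * Real.log 2)) * lv δ m +
        2 ^ m * lv δ m * (M * ((m + 1) * Real.log 2)) =
        ((2 + M) * (m + 1) * (2 ^ m * lv δ m)) * Real.log 2 := by
      rw [pow_succ]; ring
    have h9 : ((2 + M) * (m + 1) * (2 ^ m * lv δ m)) * Real.log 2 ≤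
        (2 + M) * (m + 1) * (2 ^ m * lv δ m) :=
      mul_le_of_le_one_right (by positivity) (by linarith)
    linarith

end Pool.Agent.H439.TH
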