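import Pool.Agent.H439.TH.Pref
import Pool.Agent.H439.LS.TaubField

set_option autoImplicit false

namespace Pool.Agent.H439.TH

open Finset Complex ComplexConjugate Filter Topology Pool.Agent.H439.LS Pool.Agent.H439.SP

/-- **The large sieve for the sums up to `x`.** -/
lemma sum_ST {J : ℕ} {q : Fin J → ℕ} {χ : ∀ j, DirichletCharacter ℂ (q j)} {t : Fin J → ℝ}
    {x : ℕ} (hx : (60000 : ℝ) ^ 40 ≤ x) (hs : Spaced q χ t) {R : ℝ} (hR : 16 ≤ R)
    (hq : ∀ j, (q j : ℝ) ≤ R) (ht : ∀ j, |t j| ≤ R) (hRx : R ^ 40 ≤ x)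
    {a : ℕ → ℂ} {M : ℝ} (hM : 0 < M) (ha : ∀ p : ℕ, p.Prime → ‖a p‖ ≤ M) :
    ∑ j, ‖ST a (χ j) (t j) 0 x‖ ^ 2 ≤ CT * M ^ 2 * (x : ℝ) ^ 2 := by
  have hx0 : 0 < x := by
    have : (0 : ℝ) < x := lt_of_lt_of_le (by norm_num) hx
    exact_mod_cast this
  have hx1 : (0 : ℝ) < x := by exact_mod_cast hx0
  have hs' : SpacedBy ((x : ℝ) / (x - (0 : ℕ))) q χ (fun j => -t j) := by
    have e : (x : ℝ) / (x - (0 : ℕ)) = 1 := by
      rw [Nat.cast_zero, sub_zero, div_self hx1.ne']
    rw [e]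
    exact ⟨hs.neg.pos, hs.neg.sep⟩
  have h1 := taub (A := 0) hx0 hx hs' hR hq (fun j => by rw [abs_neg]; exact ht j) hRx
    (by push_cast; nlinarith) hM ha
  rw [norm_vec, Real.sq_sqrt (sum_nonneg fun j _ => by positivity)] at h1
  rw [Nat.cast_zero, sub_zero] at h1
  exact h1

/-- **The large range.** -/
theorem large_sum {δ M : ℝ} (hδ : 0 < δ) (hδ1 : δ ≤ 1) (hM : 0 < M) :
    ∀ᶠ ℓ : ℝ in atTop, ∀ (J : ℕ) (q : Fin J → ℕ) (χ : ∀ j, DirichletCharacter ℂ (q j))
      (t : Fin J → ℝ), Spaced q χ t → (∀ j, (q j : ℝ) ≤ Real.exp ℓ) → (∀ j, |t j| ≤ Real.exp ℓ) →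
      ∀ a : ℕ → ℂ, (∀ p : ℕ, p.Prime → ‖a p‖ ≤ M) →
      ∃ E : Finset (Fin J), (E.card : ℝ) ≤ Real.exp (δ * ℓ / 2) ∧ ∀ j, j ∉ E →
        ∀ T : ℕ, 41 * ℓ ≤ Real.log T → Real.log T ≤ Real.exp (δ * ℓ / 16) →
        ‖ST a (χ j) (t j) 0 T‖ ≤ T * Real.exp (-(δ * ℓ / 32)) := by
  have hCT : 0 < CT := by
    unfold CT
    have := CS_pos
    have := CB_pos
    positivity
  have hη : Tendsto (fun ℓ : ℝ => Real.exp (-(δ * ℓ / 8))) atTop (𝓝 0) := by
    apply Real.tendsto_exp_atBot.comp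
    apply tendsto_neg_atTop_atBot.comp
    apply Tendsto.atTop_div_const (by norm_num)
    exact tendsto_id.const_mul_atTop hδ
  filter_upwards [eventually_ge_atTop 28, hη.eventually (gt_mem_nhds (by norm_num : (0 : ℝ) < 1 / 2)),
    ev_pow (4 * (CT * M ^ 2)) (b := δ / 16) (by positivity) 0,
    ev_pow (2 * (1 + 2 * M)) (b := δ / 32) (by positivity) 0,
    ev_pow (60000 ^ 40) (b := 1) (by norm_num) 0, eventually_ge_atTop (16 / δ)] with ℓ hℓ28 hη2 hev1 hev2
      hev3 hδℓ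
  intro J q χ t hsp hq ht a ha
  classical
  have hℓ0 : 0 < ℓ := by linarith
  rw [pow_zero, mul_one] at hev1 hev2 hev3
  rw [one_mul] at hev3
  set η : ℝ := Real.exp (-(δ * ℓ / 8)) with hηd
  have hη0 : 0 < η := Real.exp_pos _
  set R : ℝ := Real.exp ℓ with hR
  have hR16 : 16 ≤ R := by
    have h1 := Real.add_one_le_exp ℓ
    linarith
  have hlog0 : η / 2 ≤ Real.log (1 + η) := by
    have h1 := Real.one_sub_inv_le_log_of_pos (show 0 < 1 + η by linarith)
    have h2 : 1 - (1 + η)⁻¹ = η / (1 + η) := by field_simp; ring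
    rw [h2] at h1
    refine le_trans ?_ h1
    apply div_le_div_of_nonneg_left hη0.le (by linarith)
    linarith
  have hlogpos : 0 < Real.log (1 + η) := by linarith
  set X : ℕ → ℕ := fun i => ⌊(1 + η) ^ i⌋₊ with hX
  set U : ℝ := Real.exp (δ * ℓ / 16) with hU
  have hU1 : 1 ≤ U := Real.one_le_exp (by positivity)
  set Ir : Finset ℕ := (range (⌊U / Real.log (1 + η)⌋₊ + 1)).filter (fun i =>
    R ^ 40 ≤ X i ∧ (60000 : ℝ) ^ 40 ≤ X i) with hIr
  set W : ℕ → Finset (Fin J) := fun i => univ.filter fun j =>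
    η * X i ≤ ‖ST a (χ j) (t j) 0 (X i)‖ with hW
  refine ⟨Ir.biUnion W, ?_, ?_⟩
  · have hb : ∀ i ∈ Ir, ((W i).card : ℝ) ≤ CT * M ^ 2 * Real.exp (δ * ℓ / 4) := by
      intro i hi
      rw [hIr, mem_filter] at hi
      obtain ⟨_, hi1, hi2⟩ := hi
      have hx0 : (0 : ℝ) < X i := lt_of_lt_of_le (by norm_num) hi2
      have h1 := sum_ST hi2 hsp hR16 hq ht hi1 hM ha
      have h2 : ((W i).card : ℝ) * (η * X i) ^ 2 ≤ ∑ j, ‖ST a (χ j) (t j) 0 (X i)‖ ^ 2 := by
        have h3 : ∑ _j ∈ W i, (η * X i) ^ 2 ≤ ∑ j ∈ W i, ‖ST a (χ j) (t j) 0 (X i)‖ ^ 2 := by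
          apply sum_le_sum
          intro j hj
          exact pow_le_pow_left₀ (by positivity) (mem_filter.1 hj).2 2
        rw [sum_const, nsmul_eq_mul] at h3
        refine h3.trans ?_
        exact sum_le_sum_of_subset_of_nonneg (subset_univ _) fun _ _ _ => sq_nonneg _
      have h3 := h2.trans h1
      have e : Real.exp (δ * ℓ / 4) * η ^ 2 = 1 := by
        rw [hηd, ← Real.exp_nat_mul, ← Real.exp_add]
        rw [show δ * ℓ / 4 + ((2 : ℕ) : ℝ) * -(δ * ℓ / 8) = 0 by push_cast; ring, Real.exp_zero]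
      have hpos : 0 < (η * X i) ^ 2 := by positivity
      refine le_of_mul_le_mul_right ?_ hpos
      calc ((W i).card : ℝ) * (η * X i) ^ 2 ≤ CT * M ^ 2 * (X i : ℝ) ^ 2 := h3
        _ = CT * M ^ 2 * (X i : ℝ) ^ 2 * (Real.exp (δ * ℓ / 4) * η ^ 2) := by rw [e, mul_one]
        _ = _ := by ring
    have hcI : (Ir.card : ℝ) ≤ 4 * Real.exp (3 * δ * ℓ / 16) := by
      have h1 : Ir.card ≤ ⌊U / Real.log (1 + η)⌋₊ + 1 := by
        refine (card_filter_le _ _).trans ?_
        rw [card_range]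
      have h2 : (⌊U / Real.log (1 + η)⌋₊ : ℝ) ≤ U / Real.log (1 + η) :=
        Nat.floor_le (by positivity)
      have h3 : U / Real.log (1 + η) ≤ U / (η / 2) :=
        div_le_div_of_nonneg_left (by positivity) (by positivity) hlog0
      have h4 : U / (η / 2) = 2 * Real.exp (3 * δ * ℓ / 16) := by
        rw [hU, hηd, show 3 * δ * ℓ / 16 = δ * ℓ / 16 - -(δ * ℓ / 8) by ring, Real.exp_sub]
        field_simp
      have h5 : (Ir.card : ℝ) ≤ ⌊U / Real.log (1 + η)⌋₊ + 1 := by exact_mod_cast h1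
      have h6 : 1 ≤ Real.exp (3 * δ * ℓ / 16) := Real.one_le_exp (by positivity)
      linarith
    have h1 : ((Ir.biUnion W).card : ℝ) ≤ ∑ i ∈ Ir, ((W i).card : ℝ) := by
      exact_mod_cast card_biUnion_le
    calc ((Ir.biUnion W).card : ℝ) ≤ ∑ i ∈ Ir, ((W i).card : ℝ) := h1
      _ ≤ ∑ i ∈ Ir, CT * M ^ 2 * Real.exp (δ * ℓ / 4) := sum_le_sum hb
      _ = Ir.card * (CT * M ^ 2 * Real.exp (δ * ℓ / 4)) := by rw [sum_const, nsmul_eq_mul]
      _ ≤ (4 * Real.exp (3 * δ * ℓ / 16)) * (CT * M ^ 2 * Real.exp (δ * ℓ / 4)) :=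
          mul_le_mul_of_nonneg_right hcI (by positivity)
      _ = (4 * (CT * M ^ 2)) * (Real.exp (3 * δ * ℓ / 16) * Real.exp (δ * ℓ / 4)) := by ring
      _ ≤ Real.exp (δ / 16 * ℓ) * (Real.exp (3 * δ * ℓ / 16) * Real.exp (δ * ℓ / 4)) :=
          mul_le_mul_of_nonneg_right hev1 (by positivity)
      _ = Real.exp (δ * ℓ / 2) := by
          rw [← Real.exp_add, ← Real.exp_add]
          congr 1
          ring
  · intro j hj T hT1 hT2
    have hT0 : (0 : ℝ) < T := by
      by_contra hcon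
      have h1 : (T : ℝ) = 0 := le_antisymm (not_lt.1 hcon) (Nat.cast_nonneg T)
      rw [h1, Real.log_zero] at hT1
      linarith
    have hTexp : Real.exp (41 * ℓ) ≤ T := by
      rw [← Real.exp_log hT0]
      exact Real.exp_le_exp.2 hT1
    have hlogT0 : 0 ≤ Real.log T := by linarith
    set i : ℕ := ⌊Real.log T / Real.log (1 + η)⌋₊ with hi
    have hi1 : (i : ℝ) * Real.log (1 + η) ≤ Real.log T := by
      have h1 : (i : ℝ) ≤ Real.log T / Real.log (1 + η) := Nat.floor_le (by positivity)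
      rwa [le_div_iff₀ hlogpos] at h1
    have hi2 : Real.log T < (i + 1) * Real.log (1 + η) := by
      have h1 : Real.log T / Real.log (1 + η) < i + 1 := Nat.lt_floor_add_one _
      rwa [div_lt_iff₀ hlogpos] at h1
    have hi3 : (1 + η) ^ i ≤ T := by
      rw [← Real.exp_log hT0, ← Real.exp_log (by positivity : (0 : ℝ) < (1 + η) ^ i), Real.log_pow]
      exact Real.exp_le_exp.2 hi1
    have hi4 : (T : ℝ) ≤ (1 + η) ^ (i + 1) := by
      rw [← Real.exp_log hT0, ← Real.exp_log (by positivity : (0 : ℝ) < (1 + η) ^ (i + 1)),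
        Real.log_pow]
      apply Real.exp_le_exp.2
      push_cast
      exact hi2.le
    set x : ℕ := X i with hx
    have hx1 : (x : ℝ) ≤ (1 + η) ^ i := Nat.floor_le (by positivity)
    have hx2 : (1 + η) ^ i < x + 1 := Nat.lt_floor_add_one _
    have hxT : x ≤ T := by
      have : (x : ℝ) ≤ T := hx1.trans hi3
      exact_mod_cast this
    have hTx : (T : ℝ) - x ≤ η * T + 1 := by
      have h1 : (1 + η) ^ (i + 1) = (1 + η) ^ i + η * (1 + η) ^ i := by ring
      have h2 : η * (1 + η) ^ i ≤ η * T := mul_le_mul_of_nonneg_left hi3 hη0.le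
      linarith
    have hE40 : Real.exp ℓ * Real.exp (40 * ℓ) ≤ T := by
      rw [← Real.exp_add, show ℓ + 40 * ℓ = 41 * ℓ by ring]
      exact hTexp
    have hexp28 : (28 : ℝ) ≤ Real.exp ℓ := by
      have := Real.add_one_le_exp ℓ
      linarith
    have hexp40 : 1 ≤ Real.exp (40 * ℓ) := Real.one_le_exp (by positivity)
    have hxbig : Real.exp (40 * ℓ) ≤ x := by
      have h1 : η * T ≤ 1 / 2 * T := mul_le_mul_of_nonneg_right hη2.le hT0.le
      have h2 : 28 * Real.exp (40 * ℓ) ≤ T := by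
        refine le_trans ?_ hE40
        exact mul_le_mul_of_nonneg_right hexp28 (by positivity)
      linarith
    have hR40 : R ^ 40 ≤ x := by
      rw [hR, ← Real.exp_nat_mul]
      exact_mod_cast hxbig
    have h60 : (60000 : ℝ) ^ 40 ≤ x := by
      refine le_trans hev3 (le_trans ?_ hxbig)
      apply Real.exp_le_exp.2
      linarith
    have hmem : i ∈ Ir := by
      rw [hIr, mem_filter, mem_range]
      refine ⟨?_, hR40, h60⟩
      apply Nat.lt_succ_of_le
      apply Nat.floor_le_floor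
      exact div_le_div_of_nonneg_right hT2 hlogpos.le
    have hnot : j ∉ W i := fun hcon => hj (mem_biUnion.2 ⟨i, hmem, hcon⟩)
    have h1 : ‖ST a (χ j) (t j) 0 x‖ ≤ η * x := by
      by_contra hcon
      rw [not_le] at hcon
      exact hnot (mem_filter.2 ⟨mem_univ _, hcon.le⟩)
    have h2 := norm_ST_le ha (χ j) (t j) hxT (hT2) (by positivity) hM.le
    rw [ST_add a (χ j) (t j) (Nat.zero_le x) hxT]
    refine (norm_add_le _ _).trans ?_
    have hηT : 1 ≤ η * T := by
      refine le_trans ?_ (mul_le_mul_of_nonneg_left hTexp hη0.le)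
      rw [hηd, ← Real.exp_add]
      apply Real.one_le_exp
      nlinarith
    have hxT' : (x : ℝ) ≤ T := by exact_mod_cast hxT
    calc ‖ST a (χ j) (t j) 0 x‖ + ‖ST a (χ j) (t j) x T‖ ≤ η * T + (2 * (η * T)) * (M * U) := by
          apply add_le_add (h1.trans (mul_le_mul_of_nonneg_left hxT' hη0.le))
          refine h2.trans (mul_le_mul_of_nonneg_right ?_ (by positivity))
          linarith
      _ ≤ T * ((1 + 2 * M) * (η * U)) := by
          have h5 : 0 ≤ T * η * (U - 1) := by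
            have : 0 ≤ U - 1 := by linarith
            positivity
          nlinarith
      _ ≤ T * Real.exp (-(δ * ℓ / 32)) := by
          apply mul_le_mul_of_nonneg_left _ hT0.le
          have e : η * U = Real.exp (-(δ * ℓ / 16)) := by
            rw [hηd, hU, ← Real.exp_add]
            congr 1
            ring
          rw [e]
          have h6 : (1 + 2 * M) ≤ Real.exp (δ / 32 * ℓ) := by
            have : 0 ≤ 1 + 2 * M := by positivity
            linarith
          calc (1 + 2 * M) * Real.exp (-(δ * ℓ / 16)) ≤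
                Real.exp (δ / 32 * ℓ) * Real.exp (-(δ * ℓ / 16)) :=
                mul_le_mul_of_nonneg_right h6 (Real.exp_nonneg _)
            _ = Real.exp (-(δ * ℓ / 32)) := by
                rw [← Real.exp_add]
                congr 1
                ring

end Pool.Agent.H439.TH
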