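import Pool.Agent.H439.TH.Large

set_option autoImplicit false

namespace Pool.Agent.H439.TH

open Finset Complex ComplexConjugate Filter Topology NumberField IsDedekindDomain
  Pool.Agent.TH339.MP Pool.Agent.H439.LS Pool.Agent.H439.SP

lemma ev_sub {P : ℝ → Prop} (h : ∀ᶠ L : ℝ in atTop, P L) {c : ℝ} (hc : 0 < c) :
    ∀ᶠ ℓ : ℝ in atTop, ∀ L : ℝ, c * Real.log ℓ ≤ L → P L := by
  obtain ⟨L₀, hL₀⟩ := Filter.eventually_atTop.1 h
  filter_upwards [(Real.tendsto_log_atTop.const_mul_atTop hc).eventually_ge_atTop L₀] with ℓ hℓ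
  intro L hL
  exact hL₀ L (hℓ.trans hL)

/-- **All scales, rational primes.** -/
theorem all_scales {δ M : ℝ} (hδ : 0 < δ) (hδ1 : δ ≤ 1) (hM : 0 < M) :
    ∀ᶠ ℓ : ℝ in atTop, ∀ (J : ℕ) (q : Fin J → ℕ) (χ : ∀ j, DirichletCharacter ℂ (q j))
      (t : Fin J → ℝ), Spaced q χ t → (∀ j, (q j : ℝ) ≤ Real.exp ℓ) → (∀ j, |t j| ≤ Real.exp ℓ) →
      ∀ a : ℕ → ℂ, (∀ p : ℕ, p.Prime → ‖a p‖ ≤ M) →
      ∃ E : Finset (Fin J), (E.card : ℝ) ≤ Real.exp (δ * ℓ) ∧ ∀ j, j ∉ E →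
        ∀ T : ℕ, 360 / δ * Real.log ℓ ≤ Real.log T → Real.log T ≤ Real.exp (δ * ℓ / 16) →
        ‖ST a (χ j) (t j) 0 T‖ ≤
          T * (Real.exp (-(δ / 800 * Real.log T)) + Real.exp (-(δ * ℓ / 32))) := by
  filter_upwards [medium_sum hδ hδ1 hM.le, large_sum hδ hδ1 hM,
    ev_pow 2 (b := δ / 2) (by positivity) 0, eventually_ge_atTop 16] with ℓ h1 h2 hev hℓ
  intro J q χ t hsp hq ht a ha
  classical
  rw [pow_zero, mul_one] at hev
  obtain ⟨E₁, hE₁, hE₁'⟩ := h1 J q χ t hsp hq ht a ha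
  obtain ⟨E₂, hE₂, hE₂'⟩ := h2 J q χ t hsp hq ht a ha
  refine ⟨E₁ ∪ E₂, ?_, ?_⟩
  · have h3 : ((E₁ ∪ E₂).card : ℝ) ≤ E₁.card + E₂.card := by exact_mod_cast card_union_le _ _
    calc ((E₁ ∪ E₂).card : ℝ) ≤ 2 * Real.exp (δ * ℓ / 2) := by linarith
      _ ≤ Real.exp (δ / 2 * ℓ) * Real.exp (δ * ℓ / 2) :=
          mul_le_mul_of_nonneg_right hev (Real.exp_nonneg _)
      _ = Real.exp (δ * ℓ) := by rw [← Real.exp_add]; congr 1; ring
  · intro j hj T hT1 hT2
    rw [mem_union, not_or] at hj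
    have hlog : 0 < Real.log ℓ := Real.log_pos (by linarith)
    have hT0 : (0 : ℝ) < T := by
      by_contra hcon
      have h3 : (T : ℝ) = 0 := le_antisymm (not_lt.1 hcon) (Nat.cast_nonneg T)
      rw [h3, Real.log_zero] at hT1
      have : 0 < 360 / δ * Real.log ℓ := by positivity
      linarith
    have e1 : Real.exp ((1 - δ / 800) * Real.log T) = T * Real.exp (-(δ / 800 * Real.log T)) := by
      rw [show (1 - δ / 800) * Real.log T = Real.log T + -(δ / 800 * Real.log T) by ring,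
        Real.exp_add, Real.exp_log hT0]
    rcases le_or_gt (Real.log T) (42 * ℓ) with h | h
    · refine (hE₁' j hj.1 T hT1 h).trans ?_
      rw [e1]
      apply mul_le_mul_of_nonneg_left _ hT0.le
      exact le_add_of_nonneg_right (Real.exp_nonneg _)
    · refine (hE₂' j hj.2 T (by linarith) hT2).trans ?_
      apply mul_le_mul_of_nonneg_left _ hT0.le
      exact le_add_of_nonneg_left (Real.exp_nonneg _)

/-- the sums over the primes of a number field, of norm at most `T` -/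
noncomputable def SA {K : Type} [Field K] [NumberField K] (a : HeightOneSpectrum (𝓞 K) → ℂ) {q : ℕ}
    (χ : DirichletCharacter ℂ q) (t T : ℝ) : ℂ :=
  ∑ᶠ (v : HeightOneSpectrum (𝓞 K)) (_ : (Ideal.absNorm v.asIdeal : ℝ) ≤ T),
    a v * χ (Ideal.absNorm v.asIdeal : ℕ) * ((Ideal.absNorm v.asIdeal : ℕ) : ℂ) ^ (-(t * I)) *
      (Real.log (Ideal.absNorm v.asIdeal : ℕ) : ℂ)

section
variable {K : Type} [Field K] [NumberField K]

lemma SA_eq (a : HeightOneSpectrum (𝓞 K) → ℂ) {q : ℕ} (χ : DirichletCharacter ℂ q) (t T : ℝ) :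
    SA a χ t T = SV (N := 1) (fun v _ => a v) χ (-t) 0 ⌊T⌋₊ := by
  classical
  unfold SA SV
  have hset : ∀ v : HeightOneSpectrum (𝓞 K), ((Ideal.absNorm v.asIdeal : ℝ) ≤ T) ↔
      v ∈ (VT ⌊T⌋₊ : Finset (HeightOneSpectrum (𝓞 K))).filter
        (fun v => 0 < nm v ∧ nm v ≤ ⌊T⌋₊) := by
    intro v
    have hpos : 0 < nm v := by
      rw [nm_eq]
      exact pow_pos (pr v).2.pos _
    rw [Finset.mem_filter]
    constructor
    · intro h
      have h1 : nm v ≤ ⌊T⌋₊ := Nat.le_floor h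
      exact ⟨mem_VT h1, hpos, h1⟩
    · intro h
      have hT : 0 ≤ T := by
        by_contra hcon
        rw [not_le] at hcon
        have h2 := h.2.2
        rw [Nat.floor_of_nonpos hcon.le] at h2
        omega
      exact (Nat.le_floor_iff hT).1 h.2.2
  have h3 : (∑ᶠ (v : HeightOneSpectrum (𝓞 K)) (_ : (Ideal.absNorm v.asIdeal : ℝ) ≤ T),
      a v * χ (Ideal.absNorm v.asIdeal : ℕ) * ((Ideal.absNorm v.asIdeal : ℕ) : ℂ) ^ (-(t * I)) *
      (Real.log (Ideal.absNorm v.asIdeal : ℕ) : ℂ)) =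
      ∑ᶠ (v : HeightOneSpectrum (𝓞 K)) (_ : v ∈ (VT ⌊T⌋₊ : Finset (HeightOneSpectrum (𝓞 K))).filter
        (fun v => 0 < nm v ∧ nm v ≤ ⌊T⌋₊)),
      a v * χ (Ideal.absNorm v.asIdeal : ℕ) * ((Ideal.absNorm v.asIdeal : ℕ) : ℂ) ^ (-(t * I)) *
      (Real.log (Ideal.absNorm v.asIdeal : ℕ) : ℂ) := by
    apply finsum_congr
    intro v
    exact finsum_congr_Prop (propext (hset v)) fun _ => rfl
  rw [h3, finsum_mem_finset_eq_sum]
  apply Finset.sum_congr rfl
  intro v _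
  unfold tr ph
  rw [Fin.sum_univ_one]
  have e : ((-t : ℝ) : ℂ) * I = -(t * I) := by push_cast; ring
  rw [e]
  change a v * χ (nm v : ℕ) * ((nm v : ℕ) : ℂ) ^ (-(t * I)) * (Real.log (nm v : ℕ) : ℂ) = _
  ring

lemma SA_mul (c : ℂ) (b : HeightOneSpectrum (𝓞 K) → ℂ) {q : ℕ} (χ : DirichletCharacter ℂ q)
    (t T : ℝ) : SA (fun v => c * b v) χ t T = c * SA b χ t T := by
  rw [SA_eq, SA_eq]
  unfold SV tr
  rw [mul_sum]
  apply sum_congr rfl
  intro v _
  rw [Fin.sum_univ_one, Fin.sum_univ_one]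
  ring

end

/-- **All scales, number fields.** -/
theorem all_scales_field {δ : ℝ} (hδ : 0 < δ) (hδ1 : δ ≤ 1) (d : ℕ) (hd : 0 < d) :
    ∀ᶠ ℓ : ℝ in atTop, ∀ (K : Type) [Field K] [NumberField K], Module.finrank ℚ K = d →
      ∀ (J : ℕ) (q : Fin J → ℕ) (χ : ∀ j, DirichletCharacter ℂ (q j))
      (t : Fin J → ℝ), Spaced q χ t → (∀ j, (q j : ℝ) ≤ Real.exp ℓ) → (∀ j, |t j| ≤ Real.exp ℓ) →
      ∀ a : HeightOneSpectrum (𝓞 K) → ℂ, (∀ v, ‖a v‖ ≤ 1) →
      ∃ E : Finset (Fin J), (E.card : ℝ) ≤ Real.exp (δ * ℓ) ∧ ∀ j, j ∉ E →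
        ∀ T : ℝ, 0 < T → 400 / δ * Real.log ℓ ≤ Real.log T → Real.log T ≤ Real.exp (δ * ℓ / 16) →
        ‖SA a (χ j) (t j) T‖ ≤
          T * (Real.exp (-(δ / 1600 * Real.log T)) + Real.exp (-(δ * ℓ / 64))) := by
  set n : ℝ := (d : ℝ) with hn
  have hn0 : 0 < n := by
    rw [hn]
    exact_mod_cast hd
  have habs : ∀ᶠ L : ℝ in atTop, 2 * (1 + n * (L * Real.exp (-(1 / 4 * L)))) ≤
      Real.exp (δ / 1600 * (L - 1)) ∧ 10 * n * L ≤ Real.exp (1 / 4 * L) ∧ 10 ≤ L := by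
    filter_upwards [ev_pow (2 + 2 * n) (b := δ / 3200) (by positivity) 0,
      ev_pow 1 (b := 1 / 4) (by norm_num) 1, ev_pow (10 * n) (b := 1 / 4) (by norm_num) 1,
      eventually_ge_atTop 10] with L h1 h2 h3 h4
    rw [pow_zero, mul_one] at h1
    rw [pow_one] at h2 h3
    refine ⟨?_, h3, h4⟩
    have h5 : L * Real.exp (-(1 / 4 * L)) ≤ 1 := by
      calc L * Real.exp (-(1 / 4 * L)) ≤ Real.exp (1 / 4 * L) * Real.exp (-(1 / 4 * L)) := by
            apply mul_le_mul_of_nonneg_right _ (Real.exp_nonneg _)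
            linarith
        _ = 1 := by rw [← Real.exp_add, add_neg_cancel, Real.exp_zero]
    have h6 : 2 * (1 + n * (L * Real.exp (-(1 / 4 * L)))) ≤ 2 + 2 * n := by nlinarith
    refine h6.trans (h1.trans (Real.exp_le_exp.2 ?_))
    nlinarith
  filter_upwards [all_scales (M := n * (1 : ℕ)) hδ hδ1 (by push_cast; linarith),
    ev_sub habs (c := 360 / δ) (by positivity), eventually_ge_atTop 16,
    ev_pow 2 (b := δ / 64) (by positivity) 0,
    Real.tendsto_log_atTop.eventually_ge_atTop 1] with ℓ h1 habs hℓ hev hlog1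
  rw [pow_zero, mul_one] at hev
  intro K _ _ hK J q χ t hsp hq ht a ha
  set β : HeightOneSpectrum (𝓞 K) → Fin 1 → ℂ := fun v _ => a v with hβd
  have hβ : ∀ (v : HeightOneSpectrum (𝓞 K)) (j : Fin 1), ‖β v j‖ ≤ 1 := fun v _ => ha v
  have hap : ∀ p : ℕ, p.Prime → ‖LS.ap β p‖ ≤ n * (1 : ℕ) := by
    intro p hp
    have := norm_ap hβ p hp
    rwa [hK] at this
  obtain ⟨E, hE, hE'⟩ := h1 J q χ t hsp hq ht _ hap
  refine ⟨E, hE, fun j hj T hT0 hT1 hT2 => ?_⟩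
  have hlog : 0 < Real.log ℓ := by linarith
  have h400 : 40 ≤ 40 / δ := by rw [le_div_iff₀ hδ]; nlinarith
  have hTlog : 1 + 360 / δ * Real.log ℓ ≤ Real.log T := by
    have e : 400 / δ * Real.log ℓ = 360 / δ * Real.log ℓ + 40 / δ * Real.log ℓ := by ring
    have : 1 ≤ 40 / δ * Real.log ℓ := by nlinarith
    linarith
  have h360 : 0 < 360 / δ * Real.log ℓ := by positivity
  set L : ℝ := Real.log T with hL
  have hexp : Real.exp 1 ≤ T := by
    rw [← Real.exp_log hT0]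
    exact Real.exp_le_exp.2 (by linarith)
  have he1 := Real.exp_one_gt_d9
  set N : ℕ := ⌊T⌋₊ with hN
  have hNT : (N : ℝ) ≤ T := Nat.floor_le hT0.le
  have hNT' : T < N + 1 := Nat.lt_floor_add_one T
  have hN0 : (0 : ℝ) < N := by linarith
  have hN1 : 1 ≤ N := by
    have : 0 < N := by exact_mod_cast hN0
    omega
  set L' : ℝ := Real.log N with hL'
  have hL1 : L' ≤ L := Real.log_le_log hN0 hNT
  have hL2 : L ≤ L' + 1 := by
    have h2 : T ≤ Real.exp 1 * N := by nlinarith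
    have h3 := Real.log_le_log hT0 h2
    rw [Real.log_mul (Real.exp_pos 1).ne' hN0.ne', Real.log_exp] at h3
    linarith
  have h3 := hE' j hj N (by linarith) (hL1.trans hT2)
  have h4 := SV_approx hβ (χ j) (-t j) (A := 0) (T := N) hN1
  rw [SA_eq]
  set S := SV β (χ j) (-t j) 0 N with hS
  have h5 : ‖S‖ ≤ N * (Real.exp (-(δ / 800 * L')) + Real.exp (-(δ * ℓ / 32))) +
      n * (Real.sqrt N * L') := by
    have h6 : ‖S‖ ≤ ‖S - ST (LS.ap β) (χ j) (t j) 0 N‖ +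
        ‖ST (LS.ap β) (χ j) (t j) 0 N‖ := by
      have := norm_add_le (S - ST (LS.ap β) (χ j) (t j) 0 N)
        (ST (LS.ap β) (χ j) (t j) 0 N)
      rwa [sub_add_cancel] at this
    have h7 : ‖S - ST (LS.ap β) (χ j) (t j) 0 N‖ ≤ n * (Real.sqrt N * L') := by
      refine h4.trans (le_of_eq ?_)
      rw [Nat.cast_one, mul_one, hK]
    linarith
  obtain ⟨h6, _, _⟩ := habs L' (by linarith)
  have hL'0 : 0 ≤ L' := by linarith
  have hsq : Real.sqrt N = N * Real.exp (-(1 / 2 * L')) := by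
    rw [Real.sqrt_eq_rpow, Real.rpow_def_of_pos hN0]
    nth_rewrite 2 [← Real.exp_log hN0]
    rw [← Real.exp_add]
    congr 1
    rw [hL']
    ring
  have h7 : n * (Real.sqrt N * L') ≤
      N * (n * (L' * Real.exp (-(1 / 4 * L'))) * Real.exp (-(δ / 800 * L'))) := by
    rw [hsq]
    have h8 : Real.exp (-(1 / 2 * L')) ≤ Real.exp (-(1 / 4 * L')) * Real.exp (-(δ / 800 * L')) := by
      rw [← Real.exp_add]
      apply Real.exp_le_exp.2
      nlinarith
    calc n * (N * Real.exp (-(1 / 2 * L')) * L') = (N * n * L') * Real.exp (-(1 / 2 * L')) := by ring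
      _ ≤ (N * n * L') * (Real.exp (-(1 / 4 * L')) * Real.exp (-(δ / 800 * L'))) :=
          mul_le_mul_of_nonneg_left h8 (by positivity)
      _ = _ := by ring
  have h8 : (1 + n * (L' * Real.exp (-(1 / 4 * L')))) * Real.exp (-(δ / 800 * L')) ≤
      Real.exp (-(δ / 1600 * L)) := by
    have h9 : 1 + n * (L' * Real.exp (-(1 / 4 * L'))) ≤ Real.exp (δ / 1600 * (L' - 1)) := by
      have : 0 ≤ 1 + n * (L' * Real.exp (-(1 / 4 * L'))) := by positivity
      linarith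
    calc _ ≤ Real.exp (δ / 1600 * (L' - 1)) * Real.exp (-(δ / 800 * L')) :=
          mul_le_mul_of_nonneg_right h9 (Real.exp_nonneg _)
      _ = Real.exp (-(δ / 1600 * (L' + 1))) := by
          rw [← Real.exp_add]
          congr 1
          ring
      _ ≤ _ := by
          apply Real.exp_le_exp.2
          nlinarith
  have h9 : Real.exp (-(δ * ℓ / 32)) ≤ Real.exp (-(δ * ℓ / 64)) := by
    apply Real.exp_le_exp.2
    nlinarith
  calc ‖S‖ ≤ N * ((1 + n * (L' * Real.exp (-(1 / 4 * L')))) * Real.exp (-(δ / 800 * L')) +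
        Real.exp (-(δ * ℓ / 32))) := by
        refine (h5.trans (add_le_add le_rfl h7)).trans (le_of_eq ?_)
        ring
    _ ≤ T * (Real.exp (-(δ / 1600 * L)) + Real.exp (-(δ * ℓ / 64))) := by
        apply mul_le_mul hNT (add_le_add h8 h9) (by positivity) hT0.le

end Pool.Agent.H439.TH
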