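import Pool.Agent.H439.SP.Short

set_option autoImplicit false

namespace Pool.Agent.H439.TH

open Finset Complex ComplexConjugate Filter Topology Pool.Agent.H439.LS Pool.Agent.H439.SP

/-- **The numbers, for a power saving.** -/
lemma numbers2 {δ M : ℝ} (hδ : 0 < δ) (hδ1 : δ ≤ 1) (hM : 0 ≤ M) :
    ∀ᶠ ℓ : ℝ in atTop, ∀ m : ℕ, 1 ≤ m → (m : ℝ) * Real.log 2 ≤ 42 * ℓ →
      120 / δ * Real.log ℓ ≤ m * Real.log 2 → ∃ k : ℕ, 1 ≤ k ∧
      ((k : ℝ) * (k + 1)) ^ 2 * (k.factorial * (M ^ 2 / 2 ^ m) ^ k *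
        EE (Real.exp ℓ) (2 ^ ((m + 1) * k))) ≤
          Real.exp (-(δ / 400 * (m * Real.log 2))) ^ (2 * k) / 2 ∧
      62 * C0 * (((k : ℝ) * (k + 1)) ^ 2 *
        (k.factorial * (2 * M ^ 2 / Real.exp (-(δ / 400 * (m * Real.log 2))) ^ 2) ^ k)) ≤
        502200 * C0 * ℓ ^ 6 * Real.exp (δ * ℓ / 3) := by
  filter_upwards [eventually_ge_atTop (18 * M ^ 2), eventually_ge_atTop 16,
    ev_pow (2 * 8100 * 9216) (b := 1 / 2) (by norm_num) 7] with ℓ hℓM hℓ1 hev
  intro m hm hmn hmB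
  have hl2 : 0 < Real.log 2 := Real.log_pos (by norm_num)
  have hl2a := Real.log_two_gt_d9
  have hl2b := Real.log_two_lt_d9
  have hℓ0 : 0 < ℓ := by linarith
  have hm1 : (1 : ℝ) ≤ m := by exact_mod_cast hm
  have hlog : 0 < Real.log ℓ := Real.log_pos (by linarith)
  set k : ℕ := ⌈5 * ℓ / (m * Real.log 2)⌉₊ with hk
  have hml : 0 < m * Real.log 2 := by positivity
  have hk1 : 5 * ℓ / (m * Real.log 2) ≤ k := Nat.le_ceil _
  have hk2 : (k : ℝ) < 5 * ℓ / (m * Real.log 2) + 1 := Nat.ceil_lt_add_one (by positivity)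
  have hkpos : 1 ≤ k := Nat.ceil_pos.2 (by positivity)
  have hkpos' : (1 : ℝ) ≤ k := by exact_mod_cast hkpos
  refine ⟨k, hkpos, ?_⟩
  have hk9 : (k : ℝ) ≤ 9 * ℓ := by
    have h1 : 5 * ℓ / (m * Real.log 2) ≤ 8 * ℓ := by
      rw [div_le_iff₀ hml]
      have : 0.69 ≤ (m : ℝ) * Real.log 2 := by nlinarith
      nlinarith
    linarith
  have hkm : (k : ℝ) * (m * Real.log 2) ≤ 5 * ℓ + m * Real.log 2 := by
    have h5 := mul_le_mul_of_nonneg_right hk2.le hml.le
    have e : (5 * ℓ / (m * Real.log 2) + 1) * (m * Real.log 2) = 5 * ℓ + m * Real.log 2 := by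
      field_simp
    rw [e] at h5
    exact h5
  -- `(ℓ ^ 2) ^ k`
  set Z : ℝ := (ℓ ^ 2) ^ k with hZ
  have hZ0 : 0 < Z := by positivity
  have hZle : Z ≤ ℓ ^ 2 * Real.exp (δ * ℓ / 12) := by
    have h1 : (k : ℝ) * Real.log ℓ ≤ Real.log ℓ + δ * ℓ / 24 := by
      have h2 : 5 * ℓ / (m * Real.log 2) ≤ δ * ℓ / (24 * Real.log ℓ) := by
        rw [div_le_div_iff₀ hml (by positivity)]
        have h3 : 120 * Real.log ℓ ≤ m * Real.log 2 * δ := by
          have := mul_le_mul_of_nonneg_right hmB hδ.le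
          have e : 120 / δ * Real.log ℓ * δ = 120 * Real.log ℓ := by field_simp
          rwa [e] at this
        nlinarith
      have h4 : (k : ℝ) ≤ δ * ℓ / (24 * Real.log ℓ) + 1 := by linarith
      have h5 := mul_le_mul_of_nonneg_right h4 hlog.le
      have e : (δ * ℓ / (24 * Real.log ℓ) + 1) * Real.log ℓ = Real.log ℓ + δ * ℓ / 24 := by
        field_simp
        ring
      rwa [e] at h5
    have h6 : Z = Real.exp (2 * (k * Real.log ℓ)) := by
      rw [hZ, ← pow_mul, ← Real.exp_log (pow_pos hℓ0 (2 * k)), Real.log_pow]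
      congr 1
      push_cast
      ring
    rw [h6]
    calc Real.exp (2 * (k * Real.log ℓ)) ≤ Real.exp (2 * Real.log ℓ + δ * ℓ / 12) := by
          apply Real.exp_le_exp.2
          linarith
      _ = ℓ ^ 2 * Real.exp (δ * ℓ / 12) := by
          rw [Real.exp_add]
          congr 1
          rw [← Real.exp_log (pow_pos hℓ0 2), Real.log_pow]
          push_cast
          rfl
  have hX : ((k : ℝ) * (k + 1)) ^ 2 ≤ 8100 * ℓ ^ 4 := by
    have h1 : (k : ℝ) + 1 ≤ 10 * ℓ := by linarith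
    calc ((k : ℝ) * (k + 1)) ^ 2 ≤ (9 * ℓ * (10 * ℓ)) ^ 2 := by gcongr
      _ = 8100 * ℓ ^ 4 := by ring
  have hfac : (k.factorial : ℝ) ≤ (9 * ℓ) ^ k := by
    have h1 : (k.factorial : ℝ) ≤ (k : ℝ) ^ k := by exact_mod_cast Nat.factorial_le_pow k
    exact h1.trans (pow_le_pow_left₀ (by positivity) hk9 k)
  set l : ℝ := Real.exp (-(δ / 400 * (m * Real.log 2))) with hl
  have hl0 : 0 < l := Real.exp_pos _
  -- the power of `l`
  have hlk : 1 / l ^ (2 * k) ≤ Real.exp (δ * ℓ / 4) := by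
    have e : 1 / l ^ (2 * k) = Real.exp (2 * (δ / 400) * (k * (m * Real.log 2))) := by
      rw [hl, ← Real.exp_nat_mul, one_div, ← Real.exp_neg]
      congr 1
      push_cast
      ring
    rw [e]
    apply Real.exp_le_exp.2
    have h1 : (k : ℝ) * (m * Real.log 2) ≤ 47 * ℓ := by linarith
    have h2 : 2 * (δ / 400) * (k * (m * Real.log 2)) ≤ 2 * (δ / 400) * (47 * ℓ) := by gcongr
    have h3 : 0 < δ * ℓ := by positivity
    nlinarith
  have hZ2 : k.factorial * (2 * M ^ 2 / l ^ 2) ^ k ≤ Z * Real.exp (δ * ℓ / 4) := by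
    calc (k.factorial : ℝ) * (2 * M ^ 2 / l ^ 2) ^ k =
          k.factorial * (2 * M ^ 2) ^ k * (1 / l ^ (2 * k)) := by
            rw [div_pow, ← pow_mul]; ring
      _ ≤ (9 * ℓ) ^ k * (2 * M ^ 2) ^ k * Real.exp (δ * ℓ / 4) := by gcongr
      _ = (18 * M ^ 2 * ℓ) ^ k * Real.exp (δ * ℓ / 4) := by rw [← mul_pow]; congr 2; ring
      _ ≤ (ℓ ^ 2) ^ k * Real.exp (δ * ℓ / 4) := by
          apply mul_le_mul_of_nonneg_right _ (Real.exp_nonneg _)
          apply pow_le_pow_left₀ (by positivity)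
          calc 18 * M ^ 2 * ℓ ≤ ℓ * ℓ := mul_le_mul_of_nonneg_right hℓM hℓ0.le
            _ = ℓ ^ 2 := by ring
  have hZ3 : k.factorial * (2 * M ^ 2 / l ^ 2) ^ k ≤ ℓ ^ 2 * Real.exp (δ * ℓ / 3) := by
    refine hZ2.trans ?_
    calc Z * Real.exp (δ * ℓ / 4) ≤ ℓ ^ 2 * Real.exp (δ * ℓ / 12) * Real.exp (δ * ℓ / 4) :=
          mul_le_mul_of_nonneg_right hZle (Real.exp_nonneg _)
      _ = ℓ ^ 2 * Real.exp (δ * ℓ / 3) := by
          rw [mul_assoc, ← Real.exp_add]
          congr 2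
          ring
  have hC0 := C0_nonneg
  constructor
  · -- the error term
    have hEE : EE (Real.exp ℓ) (2 ^ ((m + 1) * k)) ≤ 9216 * ℓ * Real.exp (3 * ℓ) := by
      unfold EE
      have h1 := hr_le (6 * 2 ^ ((m + 1) * k))
      have h2 : Real.log ((6 * 2 ^ ((m + 1) * k) : ℕ) : ℝ) = Real.log 6 + (m + 1) * k * Real.log 2 := by
        push_cast
        rw [Real.log_mul (by norm_num) (by positivity), Real.log_pow]
        push_cast
        rfl
      have h3' : Real.log 6 ≤ 3 := by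
        have e6 : Real.log 6 ≤ Real.log 8 := Real.log_le_log (by norm_num) (by norm_num)
        have e8 : Real.log 8 = 3 * Real.log 2 := by
          rw [show (8 : ℝ) = 2 ^ 3 by norm_num, Real.log_pow]; norm_num
        linarith
      have h7 : ((m : ℝ) + 1) * k * Real.log 2 ≤ 94 * ℓ := by
        have h8 : ((m : ℝ) + 1) * k * Real.log 2 ≤ 2 * (k * (m * Real.log 2)) := by
          have : (k : ℝ) * Real.log 2 ≤ m * (k * Real.log 2) :=
            le_mul_of_one_le_left (by positivity) hm1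
          nlinarith
        linarith
      have h9 : hr (6 * 2 ^ ((m + 1) * k)) ≤ 95 * ℓ := by linarith
      have h10 := hr_nonneg (6 * 2 ^ ((m + 1) * k))
      have h11 : 1 ≤ Real.exp ℓ := Real.one_le_exp hℓ0.le
      have h12 : 1 + 2 * Real.exp ℓ * hr (6 * 2 ^ ((m + 1) * k)) ≤ 192 * ℓ * Real.exp ℓ := by
        have : 2 * Real.exp ℓ * hr (6 * 2 ^ ((m + 1) * k)) ≤ 2 * Real.exp ℓ * (95 * ℓ) := by gcongr
        nlinarith
      calc 48 * (Real.exp ℓ ^ 2 * (1 + 2 * Real.exp ℓ * hr (6 * 2 ^ ((m + 1) * k)))) ≤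
            48 * (Real.exp ℓ ^ 2 * (192 * ℓ * Real.exp ℓ)) := by gcongr
        _ = 9216 * ℓ * (Real.exp ℓ ^ 3) := by ring
        _ = 9216 * ℓ * Real.exp (3 * ℓ) := by rw [← Real.exp_nat_mul]; norm_num
    have hE0 := EE_nonneg (Real.exp_nonneg ℓ) (2 ^ ((m + 1) * k))
    have h5ℓ : Real.exp (5 * ℓ) ≤ (2 : ℝ) ^ (m * k) := by
      have h1 : 5 * ℓ ≤ k * (m * Real.log 2) := by
        rw [div_le_iff₀ hml] at hk1
        exact hk1
      have h2 : (2 : ℝ) ^ (m * k) = Real.exp (k * (m * Real.log 2)) := by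
        rw [← Real.exp_log (by positivity : (0 : ℝ) < 2 ^ (m * k)), Real.log_pow]
        congr 1
        push_cast
        ring
      rw [h2]
      exact Real.exp_le_exp.2 h1
    have hfin : 2 * (((k : ℝ) * (k + 1)) ^ 2 * (k.factorial * (2 * M ^ 2 / l ^ 2) ^ k *
        EE (Real.exp ℓ) (2 ^ ((m + 1) * k)))) ≤ 2 ^ (m * k) := by
      calc 2 * (((k : ℝ) * (k + 1)) ^ 2 * (k.factorial * (2 * M ^ 2 / l ^ 2) ^ k *
          EE (Real.exp ℓ) (2 ^ ((m + 1) * k)))) ≤
          2 * (8100 * ℓ ^ 4 * ((ℓ ^ 2 * Real.exp (δ * ℓ / 3)) * (9216 * ℓ * Real.exp (3 * ℓ)))) := by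
            apply mul_le_mul_of_nonneg_left _ (by norm_num)
            apply mul_le_mul hX _ (by positivity) (by positivity)
            exact mul_le_mul hZ3 hEE hE0 (by positivity)
        _ = (2 * 8100 * 9216 * ℓ ^ 7) * Real.exp (δ * ℓ / 3 + 3 * ℓ) := by
            rw [Real.exp_add]; ring
        _ ≤ Real.exp (1 / 2 * ℓ) * Real.exp (ℓ / 3 + 3 * ℓ) := by
            apply mul_le_mul hev _ (Real.exp_nonneg _) (Real.exp_nonneg _)
            apply Real.exp_le_exp.2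
            nlinarith
        _ ≤ Real.exp (5 * ℓ) := by
            rw [← Real.exp_add]
            apply Real.exp_le_exp.2
            linarith
        _ ≤ _ := h5ℓ
    -- conclude
    have e1 : (M ^ 2 / 2 ^ m) ^ k = (M ^ 2 / l ^ 2) ^ k * (l ^ (2 * k) / 2 ^ (m * k)) := by
      rw [pow_mul l, pow_mul (2 : ℝ) m k, ← div_pow (l ^ 2) (2 ^ m) k, ← mul_pow]
      congr 1
      field_simp
    have h1 : (M ^ 2 / l ^ 2) ^ k ≤ (2 * M ^ 2 / l ^ 2) ^ k := by
      apply pow_le_pow_left₀ (by positivity)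
      apply div_le_div_of_nonneg_right _ (by positivity)
      linarith [sq_nonneg M]
    have hD0 : (0 : ℝ) < 2 ^ (m * k) := by positivity
    rw [e1]
    exact alg_step (sq_nonneg _) (Nat.cast_nonneg _) h1 (by positivity) hE0 (by positivity) hD0 hfin
  · calc 62 * C0 * (((k : ℝ) * (k + 1)) ^ 2 * (k.factorial * (2 * M ^ 2 / l ^ 2) ^ k)) ≤
          62 * C0 * (8100 * ℓ ^ 4 * (ℓ ^ 2 * Real.exp (δ * ℓ / 3))) := by
            apply mul_le_mul_of_nonneg_left _ (by positivity)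
            exact mul_le_mul hX hZ3 (by positivity) (by positivity)
      _ = _ := by ring

end Pool.Agent.H439.TH
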