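import Pool.Agent.H439.TH.Medium

set_option autoImplicit false

namespace Pool.Agent.H439.TH

open Finset Complex ComplexConjugate Filter Topology Pool.Agent.H439.LS Pool.Agent.H439.SP

lemma pow_lv (δ : ℝ) (m : ℕ) : 2 ^ m * lv δ m = Real.exp ((1 - δ / 400) * (m * Real.log 2)) := by
  unfold lv
  have e : (2 : ℝ) ^ m = Real.exp (m * Real.log 2) := by
    rw [← Real.exp_log (by positivity : (0 : ℝ) < 2 ^ m), Real.log_pow]
  rw [e, ← Real.exp_add]
  congr 1
  ring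

/-- the sums over all primes up to `T` -/
lemma pref {δ M : ℝ} (hδ : 0 < δ) (hδ1 : δ ≤ 1) (hM : 0 ≤ M) {q : ℕ} {a : ℕ → ℂ}
    (ha : ∀ p : ℕ, p.Prime → ‖a p‖ ≤ M) {χ : DirichletCharacter ℂ q} {t : ℝ} {m₀ n : ℕ}
    (H : ∀ m T : ℕ, m₀ ≤ m → m ≤ n → 2 ^ m ≤ T → T ≤ 2 ^ (m + 1) →
        ‖ST a χ t (2 ^ m) T‖ ≤ (2 + M) * (m + 1) * (2 ^ m * lv δ m)) (m : ℕ) (hm : m₀ ≤ m) :
    m ≤ n → ∀ T : ℕ, 2 ^ m ≤ T → T ≤ 2 ^ (m + 1) →
      ‖ST a χ t 0 T‖ ≤ 2 ^ m₀ * (M * (m₀ * Real.log 2)) +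
        (m + 1) * ((2 + M) * (m + 1) * (2 ^ m * lv δ m)) := by
  have hl2 : 0 < Real.log 2 := Real.log_pos (by norm_num)
  have h0 : ‖ST a χ t 0 (2 ^ m₀)‖ ≤ 2 ^ m₀ * (M * (m₀ * Real.log 2)) := by
    have h1 := norm_ST_le ha χ t (A := 0) (T := 2 ^ m₀) (Nat.zero_le _) (L := m₀ * Real.log 2)
      (by push_cast; rw [Real.log_pow]) (by positivity) hM
    push_cast at h1
    rwa [sub_zero] at h1
  induction m, hm using Nat.le_induction with
  | base =>
    intro hn T hT1 hT2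
    rw [ST_add a χ t (Nat.zero_le _) hT1]
    refine (norm_add_le _ _).trans (add_le_add h0 ?_)
    refine (H m₀ T le_rfl hn hT1 hT2).trans ?_
    have hlv := lv_pos δ m₀
    have h2 : 0 ≤ (2 + M) * (m₀ + 1) * (2 ^ m₀ * lv δ m₀) := by positivity
    have h3 : (0 : ℝ) ≤ m₀ := Nat.cast_nonneg _
    nlinarith
  | succ m hm ih =>
    intro hn T hT1 hT2
    have h1 := ih (by omega) (2 ^ (m + 1)) (Nat.pow_le_pow_right (by norm_num) (by omega)) le_rfl
    have h2 := H (m + 1) T (by omega) hn hT1 hT2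
    rw [ST_add a χ t (Nat.zero_le _) hT1]
    refine (norm_add_le _ _).trans ?_
    have hmono : (2 : ℝ) ^ m * lv δ m ≤ 2 ^ (m + 1) * lv δ (m + 1) := by
      rw [pow_lv, pow_lv]
      apply Real.exp_le_exp.2
      apply mul_le_mul_of_nonneg_left _ (by linarith)
      apply mul_le_mul_of_nonneg_right _ hl2.le
      push_cast
      linarith
    have hlv := lv_pos δ (m + 1)
    have hm0 : (0 : ℝ) ≤ m := Nat.cast_nonneg m
    set G : ℝ := 2 ^ (m + 1) * lv δ (m + 1) with hG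
    have hG0 : 0 ≤ G := by positivity
    have hlv' := lv_pos δ m
    have h3 : ((m : ℝ) + 1) * ((2 + M) * (m + 1) * (2 ^ m * lv δ m)) ≤
        (m + 1) * ((2 + M) * ((m + 1 : ℕ) + 1) * G) := by
      apply mul_le_mul_of_nonneg_left _ (by positivity)
      apply mul_le_mul _ hmono (by positivity) (by positivity)
      apply mul_le_mul_of_nonneg_left _ (by positivity)
      push_cast
      linarith
    have h4 : ((m : ℝ) + 1) * ((2 + M) * ((m + 1 : ℕ) + 1) * G) + (2 + M) * ((m + 1 : ℕ) + 1) * G =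
        (((m + 1 : ℕ) : ℝ) + 1) * ((2 + M) * ((m + 1 : ℕ) + 1) * G) := by
      push_cast
      ring
    linarith

/-- absorbing the logarithms -/
lemma absorb {δ M : ℝ} (hδ : 0 < δ) (hδ1 : δ ≤ 1) (hM : 0 ≤ M) :
    ∀ᶠ L : ℝ in atTop, 2 * Real.exp (L / 3) * (M * (L / 3 + 1)) +
      (2 * L + 1) * ((2 + M) * (2 * L + 1) * Real.exp ((1 - δ / 400) * L)) ≤
      Real.exp ((1 - δ / 800) * L) := by
  filter_upwards [ev_pow (4 * M) (b := 1 / 2) (by norm_num) 1,
    ev_pow (18 * (2 + M)) (b := δ / 800) (by positivity) 2, eventually_ge_atTop 3,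
    ev_pow 2 (b := 1 / 16) (by norm_num) 1] with L h1 h2 h3 h4
  have hL0 : 0 < L := by linarith
  have h5 : 2 * Real.exp (L / 3) * (M * (L / 3 + 1)) ≤ Real.exp ((1 - δ / 800) * L) / 2 := by
    have h6 : L / 3 + 1 ≤ L := by linarith
    have h7 : 2 * Real.exp (L / 3) * (M * (L / 3 + 1)) ≤ 2 * Real.exp (L / 3) * (M * L) := by gcongr
    have h8 : 4 * M * L ≤ Real.exp (1 / 2 * L) := by rw [pow_one] at h1; exact h1
    have h9 : 2 * Real.exp (L / 3) * (M * L) = (Real.exp (L / 3) * (4 * M * L)) / 2 := by ring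
    rw [h9] at h7
    refine h7.trans ?_
    apply div_le_div_of_nonneg_right _ (by norm_num)
    calc Real.exp (L / 3) * (4 * M * L) ≤ Real.exp (L / 3) * Real.exp (1 / 2 * L) :=
          mul_le_mul_of_nonneg_left h8 (Real.exp_nonneg _)
      _ = Real.exp (L / 3 + 1 / 2 * L) := by rw [Real.exp_add]
      _ ≤ _ := by
          apply Real.exp_le_exp.2
          nlinarith
  have h6 : (2 * L + 1) * ((2 + M) * (2 * L + 1) * Real.exp ((1 - δ / 400) * L)) ≤
      Real.exp ((1 - δ / 800) * L) / 2 := by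
    have h7 : 2 * L + 1 ≤ 3 * L := by linarith
    have h8 : (2 * L + 1) * ((2 + M) * (2 * L + 1) * Real.exp ((1 - δ / 400) * L)) ≤
        (3 * L) * ((2 + M) * (3 * L) * Real.exp ((1 - δ / 400) * L)) := by gcongr
    refine h8.trans ?_
    have h9 : (3 * L) * ((2 + M) * (3 * L) * Real.exp ((1 - δ / 400) * L)) =
        ((18 * (2 + M) * L ^ 2) * Real.exp ((1 - δ / 400) * L)) / 2 := by ring
    rw [h9]
    apply div_le_div_of_nonneg_right _ (by norm_num)
    calc (18 * (2 + M) * L ^ 2) * Real.exp ((1 - δ / 400) * L) ≤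
          Real.exp (δ / 800 * L) * Real.exp ((1 - δ / 400) * L) :=
          mul_le_mul_of_nonneg_right h2 (Real.exp_nonneg _)
      _ = _ := by
          rw [← Real.exp_add]
          congr 1
          ring
  linarith

/-- **The medium range.** -/
theorem medium_sum {δ M : ℝ} (hδ : 0 < δ) (hδ1 : δ ≤ 1) (hM : 0 ≤ M) :
    ∀ᶠ ℓ : ℝ in atTop, ∀ (J : ℕ) (q : Fin J → ℕ) (χ : ∀ j, DirichletCharacter ℂ (q j))
      (t : Fin J → ℝ), Spaced q χ t → (∀ j, (q j : ℝ) ≤ Real.exp ℓ) → (∀ j, |t j| ≤ Real.exp ℓ) →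
      ∀ a : ℕ → ℂ, (∀ p : ℕ, p.Prime → ‖a p‖ ≤ M) →
      ∃ E : Finset (Fin J), (E.card : ℝ) ≤ Real.exp (δ * ℓ / 2) ∧ ∀ j, j ∉ E →
        ∀ T : ℕ, 360 / δ * Real.log ℓ ≤ Real.log T → Real.log T ≤ 42 * ℓ →
        ‖ST a (χ j) (t j) 0 T‖ ≤ Real.exp ((1 - δ / 800) * Real.log T) := by
  obtain ⟨L₀, hL₀⟩ := Filter.eventually_atTop.1 (absorb hδ hδ1 hM)
  filter_upwards [medium hδ hδ1 hM, eventually_ge_atTop 16,
    Real.tendsto_log_atTop.eventually_ge_atTop (max L₀ 1)] with ℓ hmed hℓ1 hlogL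
  intro J q χ t hsp hq ht a ha
  obtain ⟨E, hE1, hE2⟩ := hmed J q χ t hsp hq ht a ha
  refine ⟨E, hE1, fun j hj T hT1 hT2 => ?_⟩
  have hl2 : 0 < Real.log 2 := Real.log_pos (by norm_num)
  have hl2a := Real.log_two_gt_d9
  have hl2b := Real.log_two_lt_d9
  have hlog1 : 1 ≤ Real.log ℓ := (le_max_right _ _).trans hlogL
  have hlogL0 : L₀ ≤ Real.log ℓ := (le_max_left _ _).trans hlogL
  have h120 : 120 ≤ 120 / δ := by
    rw [le_div_iff₀ hδ]; nlinarith
  set B : ℝ := 120 / δ * Real.log ℓ with hB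
  have hB0 : 120 ≤ B := by rw [hB]; nlinarith
  have hBL : 3 * B ≤ Real.log T := by
    have : 360 / δ * Real.log ℓ = 3 * B := by rw [hB]; ring
    linarith
  set L : ℝ := Real.log T with hL
  have hT0 : (0 : ℝ) < T := by
    by_contra hcon
    have h1 : (T : ℝ) = 0 := le_antisymm (not_lt.1 hcon) (Nat.cast_nonneg T)
    rw [hL, h1, Real.log_zero] at hBL
    linarith
  have hTpos : 0 < T := by exact_mod_cast hT0
  -- the first block
  set m₀ : ℕ := ⌈B / Real.log 2⌉₊ with hm₀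
  have hm1 : B ≤ m₀ * Real.log 2 := by
    have := Nat.le_ceil (B / Real.log 2)
    rwa [div_le_iff₀ hl2] at this
  have hm2 : m₀ * Real.log 2 ≤ B + Real.log 2 := by
    have h1 : (m₀ : ℝ) < B / Real.log 2 + 1 := Nat.ceil_lt_add_one (by positivity)
    have h2 := mul_le_mul_of_nonneg_right h1.le hl2.le
    have e : (B / Real.log 2 + 1) * Real.log 2 = B + Real.log 2 := by field_simp
    rwa [e] at h2
  have hm3 : 1 ≤ m₀ := Nat.ceil_pos.2 (by positivity)
  -- the last block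
  set m : ℕ := Nat.log 2 T with hm
  have hm4 : 2 ^ m ≤ T := Nat.pow_log_le_self 2 hTpos.ne'
  have hm5 : T < 2 ^ (m + 1) := Nat.lt_pow_succ_log_self (by norm_num) T
  have hm6 : m * Real.log 2 ≤ L := by
    have h1 : (2 : ℝ) ^ m ≤ T := by exact_mod_cast hm4
    have h2 := Real.log_le_log (by positivity) h1
    rwa [Real.log_pow] at h2
  have hm7 : L ≤ (m + 1) * Real.log 2 := by
    have h1 : (T : ℝ) ≤ 2 ^ (m + 1) := by exact_mod_cast hm5.le
    have h2 := Real.log_le_log hT0 h1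
    rw [Real.log_pow] at h2
    push_cast at h2
    exact h2
  have hmm : m₀ ≤ m := by
    have h1 : (m₀ : ℝ) * Real.log 2 < (m + 1) * Real.log 2 := by linarith
    have h2 : (m₀ : ℝ) < m + 1 := lt_of_mul_lt_mul_right h1 hl2.le
    have h3 : m₀ < m + 1 := by exact_mod_cast h2
    omega
  have H : ∀ m' T' : ℕ, m₀ ≤ m' → m' ≤ m → 2 ^ m' ≤ T' → T' ≤ 2 ^ (m' + 1) →
      ‖ST a (χ j) (t j) (2 ^ m') T'‖ ≤ (2 + M) * (m' + 1) * (2 ^ m' * lv δ m') := by
    intro m' T' h1 h2 h3 h4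
    have h5 : (m₀ : ℝ) ≤ m' := by exact_mod_cast h1
    have h6 : (m' : ℝ) ≤ m := by exact_mod_cast h2
    refine hE2 j hj m' T' (by omega) ?_ ?_ h3 h4
    · have : (m' : ℝ) * Real.log 2 ≤ m * Real.log 2 := mul_le_mul_of_nonneg_right h6 hl2.le
      linarith
    · have : (m₀ : ℝ) * Real.log 2 ≤ m' * Real.log 2 := mul_le_mul_of_nonneg_right h5 hl2.le
      linarith
  have h1 := pref hδ hδ1 hM ha H m hmm le_rfl T hm4 hm5.le
  refine h1.trans (le_trans ?_ (hL₀ L (by nlinarith)))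
  have hmL : (m : ℝ) ≤ 2 * L := by nlinarith
  have hL0 : 0 ≤ L := by linarith
  apply add_le_add
  · have h2 : (2 : ℝ) ^ m₀ = Real.exp (m₀ * Real.log 2) := by
      rw [← Real.exp_log (by positivity : (0 : ℝ) < 2 ^ m₀), Real.log_pow]
    have h3 : (2 : ℝ) ^ m₀ ≤ 2 * Real.exp (L / 3) := by
      rw [h2]
      calc Real.exp (m₀ * Real.log 2) ≤ Real.exp (Real.log 2 + L / 3) := by
            apply Real.exp_le_exp.2
            linarith
        _ = 2 * Real.exp (L / 3) := by rw [Real.exp_add, Real.exp_log (by norm_num)]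
    apply mul_le_mul h3 _ (by positivity) (by positivity)
    apply mul_le_mul_of_nonneg_left _ hM
    linarith
  · rw [pow_lv]
    apply mul_le_mul _ _ (by positivity) (by positivity)
    · linarith
    · apply mul_le_mul _ _ (Real.exp_nonneg _) (by positivity)
      · apply mul_le_mul_of_nonneg_left _ (by positivity)
        linarith
      · apply Real.exp_le_exp.2
        apply mul_le_mul_of_nonneg_left hm6
        linarith

end Pool.Agent.H439.TH
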